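import Pool.Agent.H88.Skel1

open Pool.Agent.H88.Skel

theorem Pool.Agent.Results.MP_2163b8_an.Q2No.result :
    ∃ (X : Type) (_ : NormedAddCommGroup X) (_ : NormedSpace ℝ X) (_ : CompleteSpace X)
      (Γ : Type) (_ : PartialOrder Γ) (P : Γ → X →L[ℝ] X), IsSkel P ∧
      ∃ σ : StrongDual ℝ X → Γ, (∀ f, f ∘L P (σ f) = f) ∧
        ∃ A : Submodule ℝ (StrongDual ℝ X), ∃ z : StrongDual ℝ X, z ≠ 0 ∧
          (∀ a ∈ A, ∀ x, z (P (σ a) x) = 0) ∧
          StrongDual.toWeakDual z ∈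
            closure (StrongDual.toWeakDual '' (A : Set (StrongDual ℝ X))) :=
  main
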